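import Pool.Agent.Helper14.WK.StA

/-! # Project WK, module KH3: the Hecke relation for the Eichler potentials -/

set_option autoImplicit false

open Filter Topology

namespace Pool.Agent.Helper62.WK

open Pool.Agent.Helper14.WK
open Pool.Agent.Helper14.CV (G0)
open Pool.Agent.Helper28.WK (pr cp WT)

/-- the point `y i` -/
private noncomputable def wy (y : ℝ) : ℂ := ((0 : ℝ) : ℂ) + y * Complex.I

private theorem wy_re (y : ℝ) : (wy y).re = 0 := by simp [wy]

private theorem wy_im (y : ℝ) : (wy y).im = y := by simp [wy]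

private theorem lin_re (c d : ℤ) (y : ℝ) : ((c : ℂ) * wy y + d).re = d := by
  rw [Complex.add_re, Complex.mul_re, wy_re, wy_im, Complex.intCast_re, Complex.intCast_im,
    Complex.intCast_re]
  ring

private theorem lin_im (c d : ℤ) (y : ℝ) : ((c : ℂ) * wy y + d).im = c * y := by
  rw [Complex.add_im, Complex.mul_im, wy_re, wy_im, Complex.intCast_re, Complex.intCast_im,
    Complex.intCast_im]
  ring

private theorem lin_ne {c d : ℤ} {y : ℝ} (hy : 0 < y) (h : c ≠ 0 ∨ d ≠ 0) :
    (c : ℂ) * wy y + d ≠ 0 := by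
  intro h0
  have h1 := congrArg Complex.re h0
  have h2 := congrArg Complex.im h0
  rw [lin_re, Complex.zero_re] at h1
  rw [lin_im, Complex.zero_im] at h2
  have h3 : (c : ℝ) = 0 := by
    rcases mul_eq_zero.1 h2 with h | h
    · exact h
    · exact absurd h hy.ne'
  rcases h with h | h
  · exact h (by exact_mod_cast h3)
  · exact h (by exact_mod_cast h1)

private theorem ne_of_det {a b c d : ℤ} (h : 0 < a * d - b * c) :
    c ≠ 0 ∨ d ≠ 0 := by
  by_contra hc
  push Not at hc
  rw [hc.1, hc.2] at h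
  simp at h

private theorem frac_im {a b c d : ℤ} (h : 0 < a * d - b * c) {y : ℝ} (hy : 0 < y) :
    0 < (((a : ℂ) * wy y + b) / ((c : ℂ) * wy y + d)).im := by
  have h1 := lin_ne hy (ne_of_det h)
  have h2 : 0 < Complex.normSq ((c : ℂ) * wy y + d) := Complex.normSq_pos.2 h1
  rw [Complex.div_im, lin_re, lin_im, lin_re, lin_im, ← sub_div]
  refine div_pos ?_ h2
  have h3 : (0 : ℝ) < a * d - b * c := by exact_mod_cast h
  have h4 : (a : ℝ) * y * d - b * (c * y) = (a * d - b * c) * y := by ring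
  rw [h4]
  exact mul_pos h3 hy

/-- a matrix with a given first column -/
private theorem exists_col (p q : ℤ) (h : p ≠ 0 ∨ q ≠ 0) : ∃ b d : ℤ, 0 < p * d - b * q := by
  refine ⟨-q, p, ?_⟩
  rcases h with h | h
  · have : 0 < p ^ 2 := by positivity
    nlinarith [sq_nonneg q]
  · have : 0 < q ^ 2 := by positivity
    nlinarith [sq_nonneg p]

private theorem pot_lim {N : ℕ} {A : ℕ} {f : CuspForm (G0 N) (2 * A + 2)} {I : ℤ → ℤ → ℕ → ℂ}
    (hI : IsPotK A f I) (a b c d : ℤ) (h : 0 < a * d - b * c) (j : ℕ) (hj : j ≤ 2 * A) :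
    Tendsto (fun y : ℝ => EK f j (((a : ℂ) * wy y + b) / ((c : ℂ) * wy y + d))) atTop
      (𝓝 (I a c j)) := hI a b c d h j hj 0

private theorem prE_lim {N : ℕ} {A : ℕ} {f : CuspForm (G0 N) (2 * A + 2)} {I : ℤ → ℤ → ℕ → ℂ}
    (hI : IsPotK A f I) (a b c d : ℤ) (h : 0 < a * d - b * c) (P : Polynomial ℤ)
    (hP : P.natDegree ≤ 2 * A) :
    Tendsto (fun y : ℝ => prE f P (((a : ℂ) * wy y + b) / ((c : ℂ) * wy y + d))) atTop
      (𝓝 (pr I P a c)) := by
  unfold prE pr
  simp only [Polynomial.sum_def]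
  refine tendsto_finsetSum _ fun i hi => ?_
  rw [zsmul_eq_mul]
  exact (pot_lim hI a b c d h i ((Polynomial.le_natDegree_of_mem_supp i hi).trans hP)).const_mul _

private theorem mp_one (A : ℕ) (a b : ℤ) (i : ℕ) :
    mp A a (-b) 0 1 i = (Polynomial.C a * Polynomial.X - Polynomial.C b) ^ i := by
  unfold mp
  rw [Polynomial.C_0, Polynomial.C_1, zero_mul, zero_add, one_pow, mul_one, Polynomial.C_neg,
    ← sub_eq_add_neg]

private theorem deg_lin (a b : ℤ) (i : ℕ) :
    ((Polynomial.C a * Polynomial.X - Polynomial.C b) ^ i : Polynomial ℤ).natDegree ≤ i := by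
  refine Polynomial.natDegree_pow_le.trans ?_
  have h1 : (Polynomial.C a * Polynomial.X - Polynomial.C b : Polynomial ℤ).natDegree ≤ 1 := by
    refine (Polynomial.natDegree_sub_le _ _).trans ?_
    rw [Polynomial.natDegree_C]
    exact max_le ((Polynomial.natDegree_C_mul_le _ _).trans Polynomial.natDegree_X_le) (Nat.zero_le _)
  calc i * (Polynomial.C a * Polynomial.X - Polynomial.C b : Polynomial ℤ).natDegree
      ≤ i * 1 := Nat.mul_le_mul_left _ h1
    _ = i := mul_one i

theorem hKH3 (h2 : SKH2) (_hp : SKP1) : SKH3 := by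
  intro N hN A f I l lam m hI hl hE hm i hi p q hpq
  obtain ⟨b, d, hdet⟩ := exists_col p q hpq
  have hl' : (0 : ℤ) < l := by exact_mod_cast hl
  have hlC : (l : ℂ) ≠ 0 := by exact_mod_cast hl.ne'
  have d1 : 0 < ((l : ℤ) * p) * d - ((l : ℤ) * b) * q := by
    have : ((l : ℤ) * p) * d - ((l : ℤ) * b) * q = l * (p * d - b * q) := by ring
    rw [this]; exact mul_pos hl' hdet
  have d2 : ∀ j : ℕ, 0 < (p + m * (j : ℤ) * q) * ((l : ℤ) * d) -
      (b + m * (j : ℤ) * d) * ((l : ℤ) * q) := by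
    intro j
    have : (p + m * (j : ℤ) * q) * ((l : ℤ) * d) - (b + m * (j : ℤ) * d) * ((l : ℤ) * q) =
      l * (p * d - b * q) := by ring
    rw [this]; exact mul_pos hl' hdet
  have t0 := (pot_lim hI p b q d hdet i hi).const_mul lam
  have t1 := (pot_lim hI _ _ _ _ d1 i hi).const_mul ((l : ℂ) ^ (2 * A - i))
  have t2 : Tendsto (fun y : ℝ => ∑ j ∈ Finset.range l,
      prE f ((Polynomial.C (l : ℤ) * Polynomial.X - Polynomial.C (m * j)) ^ i)
        ((((p + m * (j : ℤ) * q : ℤ) : ℂ) * wy y + ((b + m * (j : ℤ) * d : ℤ) : ℂ)) /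
        ((((l : ℤ) * q : ℤ) : ℂ) * wy y + (((l : ℤ) * d : ℤ) : ℂ)))) atTop
      (𝓝 (∑ j ∈ Finset.range l,
        pr I ((Polynomial.C (l : ℤ) * Polynomial.X - Polynomial.C (m * j)) ^ i)
          (p + m * (j : ℤ) * q) ((l : ℤ) * q))) :=
    tendsto_finsetSum _ fun j _ => prE_lim hI _ _ _ _ (d2 j) _ ((deg_lin _ _ i).trans hi)
  have t3 := t2.add t1
  have e0 : WT A l m I p q i = (∑ j ∈ Finset.range l,
        pr I ((Polynomial.C (l : ℤ) * Polynomial.X - Polynomial.C (m * j)) ^ i)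
          (p + m * (j : ℤ) * q) ((l : ℤ) * q)) + (l : ℂ) ^ (2 * A - i) * I ((l : ℤ) * p) q i := by
    unfold WT
    rw [zsmul_eq_mul]
    push_cast
    rfl
  rw [e0]
  refine tendsto_nhds_unique (t3.congr' ?_) t0
  filter_upwards [eventually_gt_atTop 0] with y hy
  have hden := lin_ne hy (ne_of_det hdet)
  have him := frac_im hdet hy
  rw [← h2 N hN A f l lam m hl hE hm i hi _ him, add_comm]
  congr 1
  · congr 2
    push_cast
    rw [← mul_div_assoc]
    congr 1
    ring
  · refine Finset.sum_congr rfl fun j _ => ?_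
    rw [mp_one]
    congr 1
    push_cast
    have e : ((l : ℂ) * q * wy y + (l : ℂ) * d) = l * ((q : ℂ) * wy y + d) := by ring
    rw [e, div_add' _ _ _ hden, div_div, mul_comm (((q : ℂ) * wy y + d)) (l : ℂ)]
    congr 1
    ring

end Pool.Agent.Helper62.WK
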